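import Mathlib

set_option autoImplicit false

namespace Pool.Agent.H517Z.BL

open Classical Finset

/-- finite rooted simple graphs -/
structure RG where
  V : Type
  fin : Fintype V
  adj : V → V → Prop
  symm : ∀ u v, adj u v → adj v u
  irr : ∀ u, ¬ adj u u
  r : V

attribute [instance] RG.fin

noncomputable def RG.deg (B : RG) (v : B.V) : ℕ := ∑ w, if B.adj v w then 1 else 0

/-- the quadratic form of `4 I - A_s` -/
noncomputable def RG.Q (B : RG) (s : B.V → B.V → ℝ) (x : B.V → ℝ) : ℝ :=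
  4 * ∑ v, x v ^ 2 - ∑ u, ∑ v, if B.adj u v then s u v * x u * x v else 0

def Sg {V : Type} (s : V → V → ℝ) : Prop := (∀ i j, s i j = s j i) ∧ ∀ i j, s i j = 1 ∨ s i j = -1

lemma Sg.neg {V : Type} {s : V → V → ℝ} (h : Sg s) : Sg (-s) := by
  refine ⟨fun i j => by simp [h.1 i j], fun i j => ?_⟩
  rcases h.2 i j with h1 | h1 <;> simp [h1]

lemma Sg.comp {V W : Type} {s : V → V → ℝ} (h : Sg s) (f : W → V) :
    Sg (fun i j => s (f i) (f j)) := ⟨fun _ _ => h.1 _ _, fun _ _ => h.2 _ _⟩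

lemma Sg.sq {V : Type} {s : V → V → ℝ} (h : Sg s) (i j : V) : s i j * s i j = 1 := by
  rcases h.2 i j with h1 | h1 <;> simp [h1]

def glueAdj (B C : RG) (R : B.V → C.V → Prop) : B.V ⊕ C.V → B.V ⊕ C.V → Prop
  | Sum.inl u, Sum.inl v => B.adj u v
  | Sum.inl u, Sum.inr v => R u v
  | Sum.inr u, Sum.inl v => R v u
  | Sum.inr u, Sum.inr v => C.adj u v

def glue (B C : RG) (R : B.V → C.V → Prop) : RG where
  V := B.V ⊕ C.V
  fin := inferInstance
  adj := glueAdj B C R
  symm := by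
    rintro (u | u) (v | v) h
    · exact B.symm _ _ h
    · exact h
    · exact h
    · exact C.symm _ _ h
  irr := by
    rintro (u | u) h
    · exact B.irr _ h
    · exact C.irr _ h
  r := Sum.inl B.r

lemma deg_inl (B C : RG) (R : B.V → C.V → Prop) (u : B.V) :
    (glue B C R).deg (Sum.inl u) = B.deg u + ∑ v, if R u v then 1 else 0 := by
  unfold RG.deg
  erw [Fintype.sum_sum_type]
  rfl

lemma deg_inr (B C : RG) (R : B.V → C.V → Prop) (v : C.V) :
    (glue B C R).deg (Sum.inr v) = (∑ u, if R u v then 1 else 0) + C.deg v := by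
  unfold RG.deg
  erw [Fintype.sum_sum_type]
  rfl

lemma Q_glue (B C : RG) (R : B.V → C.V → Prop) (s : B.V ⊕ C.V → B.V ⊕ C.V → ℝ) (hs : Sg s)
    (x : B.V → ℝ) (y : C.V → ℝ) :
    (glue B C R).Q s (Sum.elim x y) =
      B.Q (fun i j => s (Sum.inl i) (Sum.inl j)) x + C.Q (fun i j => s (Sum.inr i) (Sum.inr j)) y
        - 2 * ∑ u, ∑ v, if R u v then s (Sum.inl u) (Sum.inr v) * x u * y v else 0 := by
  unfold RG.Q
  have h1 : (∑ v : (glue B C R).V, (Sum.elim x y v) ^ 2) = ∑ v, x v ^ 2 + ∑ v, y v ^ 2 := by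
    erw [Fintype.sum_sum_type]; rfl
  have h2 : (∑ u : (glue B C R).V, ∑ v : (glue B C R).V,
      if (glue B C R).adj u v then s u v * Sum.elim x y u * Sum.elim x y v else 0) =
      ((∑ u, ∑ v, if B.adj u v then s (Sum.inl u) (Sum.inl v) * x u * x v else 0) +
        ∑ u, ∑ v, if R u v then s (Sum.inl u) (Sum.inr v) * x u * y v else 0) +
      ((∑ u, ∑ v, if R v u then s (Sum.inr u) (Sum.inl v) * y u * x v else 0) +
        ∑ u, ∑ v, if C.adj u v then s (Sum.inr u) (Sum.inr v) * y u * y v else 0) := by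
    erw [Fintype.sum_sum_type]
    rw [← Finset.sum_add_distrib, ← Finset.sum_add_distrib]
    congr 1
    · refine Finset.sum_congr rfl fun u _ => ?_
      erw [Fintype.sum_sum_type]; rfl
    · refine Finset.sum_congr rfl fun u _ => ?_
      erw [Fintype.sum_sum_type]; rfl
  have h3 : (∑ u, ∑ v, if R v u then s (Sum.inr u) (Sum.inl v) * y u * x v else 0) =
      ∑ u, ∑ v, if R u v then s (Sum.inl u) (Sum.inr v) * x u * y v else 0 := by
    rw [Finset.sum_comm]
    refine Finset.sum_congr rfl fun u _ => Finset.sum_congr rfl fun v _ => ?_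
    rw [hs.1 (Sum.inr v)]
    split_ifs <;> ring
  rw [h1, h2, h3]
  ring

lemma Q_smul (B : RG) (s : B.V → B.V → ℝ) (x : B.V → ℝ) (t : ℝ) :
    B.Q s (fun v => t * x v) = t ^ 2 * B.Q s x := by
  unfold RG.Q
  rw [mul_sub, Finset.mul_sum, Finset.mul_sum, Finset.mul_sum, Finset.mul_sum]
  congr 1
  · refine Finset.sum_congr rfl fun u _ => by ring
  · refine Finset.sum_congr rfl fun u _ => ?_
    rw [Finset.mul_sum]
    refine Finset.sum_congr rfl fun v _ => ?_
    split_ifs <;> ring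

def OK (B : RG) (k : ℕ) : Prop := (∀ v, B.deg v ≤ 5) ∧ B.deg B.r ≤ k

def attach (B C : RG) : RG := glue B C (fun u v => u = B.r ∧ v = C.r)

lemma sum_ite_and {V : Type} [Fintype V] (p : Prop) (c : V) :
    (∑ v : V, if (p ∧ v = c) then 1 else 0 : ℕ) = if p then 1 else 0 := by
  by_cases hp : p <;> simp [hp]

lemma sum_ite_and' {V : Type} [Fintype V] (p : Prop) (c : V) :
    (∑ v : V, if (v = c ∧ p) then 1 else 0 : ℕ) = if p then 1 else 0 := by
  by_cases hp : p <;> simp [hp]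

lemma att_inl (B C : RG) (u : B.V) :
    (attach B C).deg (Sum.inl u) = B.deg u + if u = B.r then 1 else 0 := by
  unfold attach
  rw [deg_inl]
  congr 1
  convert sum_ite_and (u = B.r) C.r

lemma att_inr (B C : RG) (v : C.V) :
    (attach B C).deg (Sum.inr v) = (if v = C.r then 1 else 0) + C.deg v := by
  unfold attach
  rw [deg_inr]
  congr 1
  convert sum_ite_and' (v = C.r) B.r

lemma OK.attach {B C : RG} {k : ℕ} (hB : OK B k) (hk : k ≤ 4) (hC : OK C 4) :
    OK (attach B C) (k + 1) := by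
  refine ⟨?_, ?_⟩
  · rintro (u | v)
    · erw [att_inl]
      have := hB.1 u
      split_ifs with h
      · subst h; have := hB.2; omega
      · omega
    · erw [att_inr]
      have := hC.1 v
      split_ifs with h
      · subst h; have := hC.2; omega
      · omega
  · erw [att_inl]
    have := hB.2
    simp only [if_true]
    omega

lemma Q_attach (B C : RG) (s : B.V ⊕ C.V → B.V ⊕ C.V → ℝ) (hs : Sg s)
    (x : B.V → ℝ) (y : C.V → ℝ) :
    (attach B C).Q s (Sum.elim x y) =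
      B.Q (fun i j => s (Sum.inl i) (Sum.inl j)) x + C.Q (fun i j => s (Sum.inr i) (Sum.inr j)) y
        - 2 * (s (Sum.inl B.r) (Sum.inr C.r) * x B.r * y C.r) := by
  unfold attach
  rw [Q_glue _ _ _ _ hs]
  congr 2
  rw [Finset.sum_eq_single B.r, Finset.sum_eq_single C.r]
  · simp
  · intro b _ hb; simp [hb]
  · simp
  · intro b _ hb; simp [hb]
  · simp

/-- value set of the form on vectors with root value one -/
def Le (B : RG) (s : B.V → B.V → ℝ) (a : ℝ) : Prop := ∃ x : B.V → ℝ, x B.r = 1 ∧ B.Q s x ≤ a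

lemma Le.attach {B C : RG} {s : B.V ⊕ C.V → B.V ⊕ C.V → ℝ} (hs : Sg s) {a b : ℝ}
    (hB : Le B (fun i j => s (Sum.inl i) (Sum.inl j)) a)
    (hC : Le C (fun i j => s (Sum.inr i) (Sum.inr j)) b) (t : ℝ) :
    Le (attach B C) s (a + t ^ 2 * b - 2 * t) := by
  obtain ⟨x, hx, hx2⟩ := hB
  obtain ⟨y, hy, hy2⟩ := hC
  refine ⟨Sum.elim x (fun v => (s (Sum.inl B.r) (Sum.inr C.r) * t) * y v), hx, ?_⟩
  rw [Q_attach _ _ _ hs, Q_smul, hx, hy]
  have h1 := hs.sq (Sum.inl B.r) (Sum.inr C.r)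
  set e := s (Sum.inl B.r) (Sum.inr C.r)
  have h2 : (e * t) ^ 2 = t ^ 2 := by rw [mul_pow, pow_two e, h1, one_mul]
  have h3 : e * 1 * (e * t * 1) = t := by
    calc e * 1 * (e * t * 1) = (e * e) * t := by ring
      _ = t := by rw [h1, one_mul]
  rw [h2, h3]
  have := mul_le_mul_of_nonneg_left hy2 (sq_nonneg t)
  linarith

def One (B : RG) (a : ℝ) : Prop := ∀ s, Sg s → Le B s a

def Two (B : RG) (c : ℝ) : Prop := ∀ s, Sg s → ∃ a b, Le B s a ∧ Le B (-s) b ∧ a + b ≤ c

def Alt (B : RG) (a b : ℝ) : Prop :=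
  ∀ s, Sg s → (Le B s a ∧ Le B (-s) b) ∨ (Le B s b ∧ Le B (-s) a)

lemma One.attach {B C : RG} {a b : ℝ} (hB : One B a) (hC : One C b) (t : ℝ) :
    One (attach B C) (a + t ^ 2 * b - 2 * t) := fun _ hs =>
  Le.attach hs (hB _ (hs.comp Sum.inl)) (hC _ (hs.comp Sum.inr)) t

lemma Two.attach {B C : RG} {a b : ℝ} (hB : Two B a) (hC : Two C b) (t : ℝ) :
    Two (attach B C) (a + t ^ 2 * b - 4 * t) := by
  intro s hs
  obtain ⟨a1, a2, h1, h2, h3⟩ := hB _ (hs.comp Sum.inl)
  obtain ⟨b1, b2, g1, g2, g3⟩ := hC _ (hs.comp Sum.inr)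
  refine ⟨_, _, Le.attach hs h1 g1 t, Le.attach hs.neg h2 g2 t, ?_⟩
  have := mul_le_mul_of_nonneg_left g3 (sq_nonneg t)
  linarith

lemma Two.attach_alt {B C : RG} {c a b : ℝ} (hB : Two B c) (hC : Alt C a b) (t u : ℝ) :
    Two (BL.attach B C) (c + (t ^ 2 * a - 2 * t) + (u ^ 2 * b - 2 * u)) := by
  intro s hs
  obtain ⟨a1, a2, h1, h2, h3⟩ := hB _ (hs.comp Sum.inl)
  rcases hC _ (hs.comp Sum.inr) with ⟨g1, g2⟩ | ⟨g1, g2⟩
  · exact ⟨_, _, Le.attach hs h1 g1 t, Le.attach hs.neg h2 g2 u, by linarith⟩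
  · exact ⟨_, _, Le.attach hs h1 g1 u, Le.attach hs.neg h2 g2 t, by linarith⟩

lemma Le.mono {B : RG} {s : B.V → B.V → ℝ} {a b : ℝ} (h : Le B s a) (hab : a ≤ b) : Le B s b := by
  obtain ⟨x, hx, h2⟩ := h
  exact ⟨x, hx, h2.trans hab⟩

lemma One.mono {B : RG} {a b : ℝ} (h : One B a) (hab : a ≤ b) : One B b :=
  fun s hs => (h s hs).mono hab

lemma Two.mono {B : RG} {a b : ℝ} (h : Two B a) (hab : a ≤ b) : Two B b := by
  intro s hs
  obtain ⟨a1, a2, h1, h2, h3⟩ := h s hs
  exact ⟨a1, a2, h1, h2, h3.trans hab⟩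

lemma One.two {B : RG} {a : ℝ} (h : One B a) : Two B (2 * a) :=
  fun s hs => ⟨a, a, h s hs, h _ hs.neg, by linarith⟩

def pt : RG where
  V := Unit
  fin := inferInstance
  adj := fun _ _ => False
  symm := fun _ _ h => h
  irr := fun _ h => h
  r := ()

lemma pt_ok : OK pt 0 := by
  have : ∀ v, pt.deg v = 0 := fun v => by simp [RG.deg, pt]
  exact ⟨fun v => by rw [this]; omega, by rw [this]⟩

lemma pt_one : One pt 4 := by
  intro s _
  refine ⟨fun _ => 1, rfl, ?_⟩
  simp [RG.Q, pt]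

lemma OK.mono {B : RG} {k l : ℕ} (h : OK B k) (hkl : k ≤ l) : OK B l := ⟨h.1, h.2.trans hkl⟩

/-- truncated trees -/
lemma tree (n : ℕ) : ∃ B, OK B 4 ∧ One B (2 + 2 / ((n : ℝ) + 1)) := by
  induction n with
  | zero => exact ⟨pt, pt_ok.mono (by norm_num), pt_one.mono (by norm_num)⟩
  | succ n ih =>
    obtain ⟨B, hB, h1⟩ := ih
    refine ⟨attach (attach (attach (attach pt B) B) B) B,
      (((pt_ok.attach (by norm_num) hB).attach (by norm_num) hB).attach (by norm_num) hB).attach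
        (by norm_num) hB, ?_⟩
    have hn : (0 : ℝ) < (n : ℝ) + 1 := by positivity
    set t : ℝ := ((n : ℝ) + 1) / (2 * ((n : ℝ) + 2))
    refine ((((pt_one.attach h1 t).attach h1 t).attach h1 t).attach h1 t).mono (le_of_eq ?_)
    simp only [t]
    push_cast
    field_simp
    ring

/-- triangle through the three roots -/
def tri (B A D : RG) : RG :=
  glue B (attach A D) (fun u v => u = B.r ∧ (v = Sum.inl A.r ∨ v = Sum.inr D.r))

lemma tri_ok {B A D : RG} (hB : OK B 2) (hA : OK A 3) (hD : OK D 3) : OK (tri B A D) 4 := by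
  have e1 : ∀ u : B.V, (tri B A D).deg (Sum.inl u) = B.deg u + if u = B.r then 2 else 0 := by
    intro u
    unfold tri
    rw [deg_inl]
    congr 1
    erw [Fintype.sum_sum_type]
    by_cases h : u = B.r
    · rw [Finset.sum_eq_single A.r, Finset.sum_eq_single D.r]
      · simp [h]
      · intro c _ hc
        rw [if_neg]
        rintro ⟨_, h | h⟩
        · cases h
        · exact hc (Sum.inr.inj h)
      · simp
      · intro c _ hc
        rw [if_neg]
        rintro ⟨_, h | h⟩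
        · exact hc (Sum.inl.inj h)
        · cases h
      · simp
    · simp [h]
  have e2 : ∀ v : (attach A D).V, (tri B A D).deg (Sum.inr v) =
      (if (v = Sum.inl A.r ∨ v = Sum.inr D.r) then 1 else 0) + (attach A D).deg v := by
    intro v
    unfold tri
    rw [deg_inr]
    congr 1
    convert sum_ite_and' (v = Sum.inl A.r ∨ v = Sum.inr D.r) B.r
  refine ⟨?_, ?_⟩
  · rintro (u | u | u)
    · erw [e1]
      have := hB.1 u
      split_ifs with h
      · subst h; have := hB.2; omega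
      · omega
    · erw [e2, att_inl]
      have := hA.1 u
      by_cases h : u = A.r
      · subst h; have := hA.2; split_ifs <;> omega
      · rw [if_neg h, if_neg]
        · omega
        · rintro (h1 | h1)
          · exact h (Sum.inl.inj h1)
          · cases h1
    · erw [e2, att_inr]
      have := hD.1 u
      by_cases h : u = D.r
      · subst h; have := hD.2; split_ifs <;> omega
      · rw [if_neg h, if_neg]
        · omega
        · rintro (h1 | h1)
          · cases h1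
          · exact h (Sum.inr.inj h1)
  · erw [e1]
    have := hB.2
    simp only [if_true]
    omega

lemma tri_le {B A D : RG} {s : B.V ⊕ (A.V ⊕ D.V) → B.V ⊕ (A.V ⊕ D.V) → ℝ} (hs : Sg s)
    {b a : ℝ} (hB : One B b) (hA : One A a) (hD : One D a) (t : ℝ) :
    Le (tri B A D) s (b + 2 * t ^ 2 * a - 4 * t - 2 * t ^ 2 *
      (s (Sum.inl B.r) (Sum.inr (Sum.inl A.r)) * s (Sum.inl B.r) (Sum.inr (Sum.inr D.r)) *
        s (Sum.inr (Sum.inl A.r)) (Sum.inr (Sum.inr D.r)))) := by
  obtain ⟨x, hx, hx2⟩ := hB _ (hs.comp Sum.inl)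
  obtain ⟨y, hy, hy2⟩ := hA _ (hs.comp (fun i => Sum.inr (Sum.inl i)))
  obtain ⟨z, hz, hz2⟩ := hD _ (hs.comp (fun i => Sum.inr (Sum.inr i)))
  have h1 := hs.sq (Sum.inl B.r) (Sum.inr (Sum.inl A.r))
  have h2 := hs.sq (Sum.inl B.r) (Sum.inr (Sum.inr D.r))
  set e := s (Sum.inl B.r) (Sum.inr (Sum.inl A.r)) with he
  set f := s (Sum.inl B.r) (Sum.inr (Sum.inr D.r)) with hf
  set g := s (Sum.inr (Sum.inl A.r)) (Sum.inr (Sum.inr D.r)) with hg
  refine ⟨Sum.elim x (Sum.elim (fun v => (e * t) * y v) (fun v => (f * t) * z v)), hx, ?_⟩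
  unfold tri
  erw [Q_glue B (attach A D) _ s hs, Q_attach A D _ (hs.comp Sum.inr)]
  rw [Q_smul, Q_smul, hy, hz]
  have h4 : (∑ u : B.V, ∑ v : (attach A D).V,
      if (u = B.r ∧ (v = Sum.inl A.r ∨ v = Sum.inr D.r)) then
        s (Sum.inl u) (Sum.inr v) * x u *
          Sum.elim (fun v => (e * t) * y v) (fun v => (f * t) * z v) v else 0) = 2 * t := by
    rw [Finset.sum_eq_single B.r]
    · erw [Fintype.sum_sum_type]
      rw [Finset.sum_eq_single A.r, Finset.sum_eq_single D.r]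
      · simp only [true_and, true_or, or_true, if_true, Sum.elim_inl, Sum.elim_inr, hx, hy, hz]
        rw [← he, ← hf]
        calc e * 1 * (e * t * 1) + f * 1 * (f * t * 1) = (e * e) * t + (f * f) * t := by ring
          _ = 2 * t := by rw [h1, h2]; ring
      · intro c _ hc
        rw [if_neg]
        rintro ⟨_, h | h⟩
        · cases h
        · exact hc (Sum.inr.inj h)
      · simp
      · intro c _ hc
        rw [if_neg]
        rintro ⟨_, h | h⟩
        · exact hc (Sum.inl.inj h)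
        · cases h
      · simp
    · intro c _ hc; simp [hc]
    · simp
  have h5 : (e * t) ^ 2 = t ^ 2 := by rw [mul_pow, pow_two e, h1, one_mul]
  have h6 : (f * t) ^ 2 = t ^ 2 := by rw [mul_pow, pow_two f, h2, one_mul]
  rw [h5, h6, ← hg]
  have h9 : g * (e * t * 1) * (f * t * 1) = t ^ 2 * (e * f * g) := by ring
  rw [h9]
  have h10 : ∀ P Q R : ℝ, Q = 2 * t → P - 2 * (2 * t) ≤ R → P - 2 * Q ≤ R := by
    intro P Q R h h'; rw [h]; exact h'
  have h11 : ∀ X Y Z : ℝ, X ≤ b → Y ≤ a → Z ≤ a →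
      X + (t ^ 2 * Y + t ^ 2 * Z - 2 * (t ^ 2 * (e * f * g))) - 2 * (2 * t) ≤
        b + 2 * t ^ 2 * a - 4 * t - 2 * t ^ 2 * (e * f * g) := by
    intro X Y Z hX hY hZ
    have := mul_le_mul_of_nonneg_left hY (sq_nonneg t)
    have := mul_le_mul_of_nonneg_left hZ (sq_nonneg t)
    linarith
  refine h10 _ _ _ ?_ (h11 _ _ _ hx2 hy2 hz2)
  convert h4 <;> rfl

lemma tri_alt' {B A D : RG} {b a : ℝ} (hB : One B b) (hA : One A a) (hD : One D a) (t u : ℝ)
    (s : B.V ⊕ (A.V ⊕ D.V) → B.V ⊕ (A.V ⊕ D.V) → ℝ) (hs : Sg s) :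
    (Le (tri B A D) s (b + 2 * t ^ 2 * a - 4 * t - 2 * t ^ 2) ∧
      Le (tri B A D) (-s) (b + 2 * u ^ 2 * a - 4 * u + 2 * u ^ 2)) ∨
    (Le (tri B A D) s (b + 2 * u ^ 2 * a - 4 * u + 2 * u ^ 2) ∧
      Le (tri B A D) (-s) (b + 2 * t ^ 2 * a - 4 * t - 2 * t ^ 2)) := by
  have key : ∀ w : ℝ, _ := fun w => tri_le (B := B) (A := A) (D := D) hs hB hA hD w
  have key' : ∀ w : ℝ, _ := fun w => tri_le (B := B) (A := A) (D := D) hs.neg hB hA hD w
  simp only [Pi.neg_apply] at key'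
  have he := hs.2 (Sum.inl B.r) (Sum.inr (Sum.inl A.r))
  have hf := hs.2 (Sum.inl B.r) (Sum.inr (Sum.inr D.r))
  have hg := hs.2 (Sum.inr (Sum.inl A.r)) (Sum.inr (Sum.inr D.r))
  generalize s (Sum.inl B.r) (Sum.inr (Sum.inl A.r)) = e at key key' he
  generalize s (Sum.inl B.r) (Sum.inr (Sum.inr D.r)) = f at key key' hf
  generalize s (Sum.inr (Sum.inl A.r)) (Sum.inr (Sum.inr D.r)) = g at key key' hg
  have h : e * f * g = 1 ∨ e * f * g = -1 := by
    rcases he with h1 | h1 <;> rcases hf with h2 | h2 <;> rcases hg with h3 | h3 <;>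
    rw [h1, h2, h3] <;> norm_num
  have h' : -e * -f * -g = -(e * f * g) := by ring
  rcases h with h | h
  · left
    refine ⟨(key t).mono (le_of_eq ?_), (key' u).mono (le_of_eq ?_)⟩
    · rw [h]; ring
    · rw [h', h]; ring
  · right
    refine ⟨(key u).mono (le_of_eq ?_), (key' t).mono (le_of_eq ?_)⟩
    · rw [h]; ring
    · rw [h', h]; ring

lemma tri_alt {B A D : RG} {b a : ℝ} (hB : One B b) (hA : One A a) (hD : One D a) (t u : ℝ) :
    Alt (tri B A D) (b + 2 * t ^ 2 * a - 4 * t - 2 * t ^ 2) (b + 2 * u ^ 2 * a - 4 * u + 2 * u ^ 2) :=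
  fun s hs => tri_alt' hB hA hD t u s hs

lemma base : ∃ B, OK B 4 ∧ Two B (4 - 4 / 100) := by
  obtain ⟨T, hT, h1⟩ := tree 999
  have h1' : One T (2002 / 1000) := h1.mono (by norm_num)
  let B := attach (attach pt T) T
  let A := attach B T
  have hB : OK B 2 := (pt_ok.attach (by norm_num) hT).attach (by norm_num) hT
  have hA : OK A 3 := hB.attach (by norm_num) hT
  have gB : One B (3001 / 1000) := ((pt_one.attach h1' (1 / 2)).attach h1' (1 / 2)).mono (by norm_num)
  have gA : One A (25015 / 10000) := (gB.attach h1' (1 / 2)).mono (by norm_num)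
  have hC : OK (tri B A A) 4 := tri_ok hB hA hA
  have gC := tri_alt gB gA gA (2 / 3) (2 / 7)
  refine ⟨attach (attach (attach (attach pt (tri B A A)) (tri B A A)) (tri B A A)) (tri B A A),
      (((pt_ok.attach (by norm_num) hC).attach (by norm_num) hC).attach (by norm_num) hC).attach
        (by norm_num) hC, ?_⟩
  refine ((((pt_one.two.attach_alt gC (6 / 10) (41 / 100)).attach_alt gC (6 / 10) (41 / 100)).attach_alt
    gC (6 / 10) (41 / 100)).attach_alt gC (6 / 10) (41 / 100)).mono (by norm_num)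

lemma step {B : RG} {c : ℝ} (hB : OK B 4) (h1 : Two B c) (t : ℝ) :
    ∃ B', OK B' 4 ∧ Two B' (8 + 4 * (t ^ 2 * c - 4 * t)) := by
  refine ⟨attach (attach (attach (attach pt B) B) B) B,
      (((pt_ok.attach (by norm_num) hB).attach (by norm_num) hB).attach (by norm_num) hB).attach
        (by norm_num) hB, ?_⟩
  exact ((((pt_one.two.attach h1 t).attach h1 t).attach h1 t).attach h1 t).mono (le_of_eq (by ring))

lemma descend (n : ℕ) (h : ∃ B, OK B 4 ∧ Two B (4 - 4 / ((n : ℝ) + 1))) : ∃ B, OK B 4 ∧ Two B 0 := by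
  induction n with
  | zero => simpa using h
  | succ n ih =>
    apply ih
    obtain ⟨B, hB, h1⟩ := h
    obtain ⟨B', hB', h2⟩ := step hB h1 (((n : ℝ) + 2) / (2 * ((n : ℝ) + 1)))
    refine ⟨B', hB', h2.mono (le_of_eq ?_)⟩
    have hn : (0 : ℝ) < (n : ℝ) + 1 := by positivity
    push_cast
    field_simp
    ring

def Bad (B : RG) : Prop := ∀ s, Sg s → (∃ x, B.Q s x < 0) ∨ ∃ x, B.Q (-s) x < 0

lemma exists_bad : ∃ B : RG, (∀ v, B.deg v ≤ 5) ∧ Bad B := by
  obtain ⟨B, hB, h1⟩ := descend 99 (by convert base using 5; norm_num)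
  obtain ⟨B', hB', h2⟩ := step hB h1 1
  refine ⟨B', hB'.1, fun s hs => ?_⟩
  obtain ⟨a, b, ⟨x, _, hx⟩, ⟨y, _, hy⟩, hab⟩ := h2 s hs
  by_cases ha : a < 0
  · exact Or.inl ⟨x, by linarith⟩
  · exact Or.inr ⟨y, by linarith⟩

lemma Q_zero (B : RG) (s : B.V → B.V → ℝ) : B.Q s (fun _ => 0) = 0 := by simp [RG.Q]

lemma Bad.glue {B : RG} (h : Bad B) (C : RG) (R : B.V → C.V → Prop) : Bad (glue B C R) := by
  intro s hs
  rcases h _ (hs.comp Sum.inl) with ⟨x, hx⟩ | ⟨x, hx⟩
  · left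
    refine ⟨Sum.elim x (fun _ => 0), ?_⟩
    erw [Q_glue B C R s hs]
    rw [Q_zero]
    simpa using hx
  · right
    refine ⟨Sum.elim x (fun _ => 0), ?_⟩
    erw [Q_glue B C R (-s) hs.neg]
    rw [Q_zero]
    simp only [mul_zero, ite_self, Finset.sum_const_zero, sub_zero, add_zero]
    exact hx

lemma regular (k : ℕ) (hk : k ≤ 5) :
    ∃ B : RG, (∀ v, k ≤ B.deg v ∧ B.deg v ≤ 5) ∧ Bad B := by
  induction k with
  | zero =>
    obtain ⟨B, h1, h2⟩ := exists_bad
    exact ⟨B, fun v => ⟨Nat.zero_le _, h1 v⟩, h2⟩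
  | succ k ih =>
    obtain ⟨B, h1, h2⟩ := ih (by omega)
    refine ⟨glue B B (fun u v => u = v ∧ B.deg u < 5), ?_, h2.glue _ _⟩
    rintro (u | u)
    · erw [deg_inl]
      have := h1 u
      have e : (∑ v : B.V, if (u = v ∧ B.deg u < 5) then 1 else 0 : ℕ) =
          if B.deg u < 5 then 1 else 0 := by
        by_cases hp : B.deg u < 5 <;> simp [hp]
      have e' : (∑ v : B.V, @ite ℕ (u = v ∧ B.deg u < 5) (Classical.propDecidable _) 1 0) =
          if B.deg u < 5 then 1 else 0 := by convert e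
      rw [e']
      split_ifs <;> omega
    · erw [deg_inr]
      have := h1 u
      have e : (∑ v : B.V, if (v = u ∧ B.deg v < 5) then 1 else 0 : ℕ) =
          if B.deg u < 5 then 1 else 0 := by
        rw [Finset.sum_eq_single u]
        · simp
        · intro b _ hb; simp [hb]
        · simp
      have e' : (∑ v : B.V, @ite ℕ (v = u ∧ B.deg v < 5) (Classical.propDecidable _) 1 0) =
          if B.deg u < 5 then 1 else 0 := by convert e
      rw [e']
      split_ifs <;> omega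

lemma form_nonneg {V : Type} [Fintype V] [DecidableEq V] (M : Matrix V V ℝ) (hM : M.IsHermitian)
    (h : ∀ μ ∈ spectrum ℝ M, μ ≤ 4) (x : V → ℝ) :
    ∑ u, ∑ v, M u v * x u * x v ≤ 4 * ∑ v, x v ^ 2 := by
  have hP : (algebraMap ℝ (Matrix V V ℝ) 4 - M).PosSemidef := by
    rw [Matrix.posSemidef_iff_isHermitian_and_spectrum_nonneg]
    refine ⟨?_, ?_⟩
    · refine Matrix.IsHermitian.sub ?_ hM
      rw [Matrix.algebraMap_eq_diagonal]
      exact Matrix.isHermitian_diagonal _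
    · intro μ hμ
      rw [← spectrum.singleton_sub_eq] at hμ
      obtain ⟨a, ha, b, hb, rfl⟩ := hμ
      rw [Set.mem_singleton_iff] at ha
      subst ha
      have := h b hb
      simp only [Set.mem_ofPred_eq]
      linarith
  have h2 := hP.dotProduct_mulVec_nonneg x
  rw [Matrix.sub_mulVec, dotProduct_sub, Matrix.algebraMap_eq_diagonal] at h2
  have e1 : star x ⬝ᵥ (Matrix.diagonal (algebraMap ℝ (V → ℝ) 4)).mulVec x = 4 * ∑ v, x v ^ 2 := by
    simp only [dotProduct, Matrix.mulVec_diagonal, Finset.mul_sum]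
    refine Finset.sum_congr rfl fun v _ => ?_
    simp
    ring
  have e2 : star x ⬝ᵥ M.mulVec x = ∑ u, ∑ v, M u v * x u * x v := by
    simp only [dotProduct, Matrix.mulVec, Finset.mul_sum]
    refine Finset.sum_congr rfl fun u _ => Finset.sum_congr rfl fun v _ => ?_
    simp
    ring
  rw [e1, e2] at h2
  linarith

end Pool.Agent.H517Z.BL
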